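import Pool.Agent.Lib.MP_0da53c_lc.Main

/-!
A complete, bounded (indeed `∀_2`-axiomatizable), `ω`-stable theory in a countable language
with an unbounded type.
-/

namespace Pool.Agent.Results.MP_0da53c_lc.BoundedUnbounded

open FirstOrder FirstOrder.Language
open Pool.Agent.Lib.MP_0da53c_lc

universe u v w

/-- `T` is `∀_n`-axiomatizable: some set of `∀_n`-sentences has exactly the same consequences.
Here `Q false n` is the class of `∀_n`-formulas and `Q true n` the class of `∃_n`-formulas. -/
def ForallAxiomatizable {L : FirstOrder.Language.{u, v}} (n : ℕ) (T : L.Theory) : Prop :=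
  ∃ Γ : L.Theory, (∀ γ ∈ Γ, Q false n 0 γ) ∧ ∀ φ : L.Sentence, T ⊨ᵇ φ ↔ Γ ⊨ᵇ φ

/-- `T` is bounded: `∀_n`-axiomatizable for some finite `n`. -/
def Bounded {L : FirstOrder.Language.{u, v}} (T : L.Theory) : Prop :=
  ∃ n : ℕ, ForallAxiomatizable n T

/-- `T` is `ω`-stable: over every countable subset `A` of every model `M` (in the universe
`Type w`) there are at most countably many complete 1-types, that is, complete 1-types of the
complete theory of `M` with names for the elements of `A`. -/
def OmegaStable {L : FirstOrder.Language.{u, v}} (T : L.Theory) : Prop :=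
  ∀ (M : Type w) [L.Structure M] [Nonempty M], M ⊨ T → ∀ A : Set M, A.Countable →
    Countable ((L[[A]].completeTheory M).CompleteType (Fin 1))

/-- There is a complete, `∀_2`-axiomatizable (so bounded), `ω`-stable theory in a countable
language that has an unbounded type (even an unbounded 1-type over the empty set). -/
theorem result : ∃ (L : FirstOrder.Language.{0, 0}) (T : L.Theory),
    Countable L.Symbols ∧ T.IsComplete ∧ ForallAxiomatizable 2 T ∧ OmegaStable.{0, 0, w} T ∧
    ∃ p : T.CompleteType (Fin 1), ¬ Bounded p.toTheory := by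
  refine ⟨Lg, Th, inferInstance, Th_complete, ⟨Th, fun γ hγ => hγ.1, fun φ => Iff.rfl⟩,
    fun M _ _ hM A hA => omega_stable M hM A hA, ?_⟩
  obtain ⟨p, hp⟩ := unbounded
  refine ⟨p, ?_⟩
  rintro ⟨n, Γ, h1, h2⟩
  exact hp n Γ h1 h2

end Pool.Agent.Results.MP_0da53c_lc.BoundedUnbounded
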